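import Pool.Agent.H93.HQ.Targets

/-!
# LINE: the inequality along one gradient curve
-/

namespace Pool.Agent.H56.HQ
open MeasureTheory Set Filter Topology Pool.Agent.H80.HS Pool.Agent.H93.HQ
open scoped ContDiff ENNReal

/-- The gradient curve through `x`. -/
noncomputable def cur {n : ℕ} (c : ℝ) (x : H n) (s : ℝ) : H n :=
  dil s (rot (c * Real.log s) x)

lemma cur_zero {n : ℕ} (c : ℝ) (x : H n) : cur c x 0 = 0 := by
  simp [cur, dil]

lemma norm_comb_le {n : ℕ} (v w : V n) (θ : ℝ) :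
    ‖Real.cos θ • v + Real.sin θ • w‖ ≤ ‖v‖ + ‖w‖ := by
  refine (norm_add_le _ _).trans ?_
  rw [norm_smul, norm_smul, Real.norm_eq_abs, Real.norm_eq_abs]
  have h1 := Real.abs_cos_le_one θ
  have h2 := Real.abs_sin_le_one θ
  have h3 := norm_nonneg v
  have h4 := norm_nonneg w
  nlinarith

lemma norm_comb_le' {n : ℕ} (v w : V n) (θ : ℝ) :
    ‖-Real.sin θ • v + Real.cos θ • w‖ ≤ ‖v‖ + ‖w‖ := by
  refine (norm_add_le _ _).trans ?_
  rw [norm_smul, norm_smul, Real.norm_eq_abs, Real.norm_eq_abs, abs_neg]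
  have h1 := Real.abs_cos_le_one θ
  have h2 := Real.abs_sin_le_one θ
  have h3 := norm_nonneg v
  have h4 := norm_nonneg w
  nlinarith

lemma tendsto_cur {n : ℕ} (c : ℝ) (x : H n) : Tendsto (cur c x) (𝓝 0) (𝓝 0) := by
  have hlin : Tendsto (fun s : ℝ => |s| * (‖x.1‖ + ‖x.2.1‖)) (𝓝 0) (𝓝 0) := by
    have h : Continuous (fun s : ℝ => |s| * (‖x.1‖ + ‖x.2.1‖)) := by fun_prop
    have h2 := h.tendsto 0
    simpa using h2
  have e1 : Tendsto (fun s : ℝ => (cur c x s).1) (𝓝 0) (𝓝 0) := by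
    refine squeeze_zero_norm (fun s => ?_) hlin
    simp only [cur, dil, rot, norm_smul, Real.norm_eq_abs]
    exact mul_le_mul_of_nonneg_left (norm_comb_le _ _ _) (abs_nonneg s)
  have e2 : Tendsto (fun s : ℝ => (cur c x s).2.1) (𝓝 0) (𝓝 0) := by
    refine squeeze_zero_norm (fun s => ?_) hlin
    simp only [cur, dil, rot, norm_smul, Real.norm_eq_abs]
    exact mul_le_mul_of_nonneg_left (norm_comb_le' _ _ _) (abs_nonneg s)
  have e3 : Tendsto (fun s : ℝ => (cur c x s).2.2) (𝓝 0) (𝓝 0) := by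
    have h : Continuous (fun s : ℝ => s ^ 2 * x.2.2) := by fun_prop
    have h2 := h.tendsto 0
    simpa [cur, dil, rot] using h2
  exact e1.prodMk_nhds (e2.prodMk_nhds e3)

theorem pf_LINE (h1 : U_ONE) (h2 : U_CV) : U_LINE := by
  intro n F _ _ u x a b hu hc hx ha hab hb
  obtain ⟨g, hgc, hg⟩ := h2 n F u x hu hx
  -- a bound for `mz` on the support
  obtain ⟨M, hM⟩ : ∃ M : ℝ, ∀ y ∈ tsupport u, mz y ≤ M := by
    have hcomp : IsCompact (tsupport u) := hc
    obtain ⟨M, hM⟩ := (hcomp.image continuous_mz).bddAbove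
    exact ⟨M, fun y hy => hM (mem_image_of_mem _ hy)⟩
  set T : ℝ := (|M| + 1) / mz x with hT
  have hTpos : 0 < T := div_pos (by positivity) hx
  have hTx : M < T * mz x := by
    rw [hT, div_mul_cancel₀ _ hx.ne']
    have := le_abs_self M
    linarith
  have hfT : u (cur (x.2.2 / sq x) x T) = 0 := by
    by_contra hne
    have hmem : cur (x.2.2 / sq x) x T ∈ tsupport u := subset_tsupport u hne
    have h3 := hM _ hmem
    rw [cur, mz_dil hTpos.le, mz_rot] at h3
    linarith
  have hcont : ContinuousOn (fun s => u (cur (x.2.2 / sq x) x s)) (Icc 0 T) := by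
    intro s hs
    rcases eq_or_lt_of_le hs.1 with h0 | h0
    · subst h0
      have h3 : Tendsto (fun s => u (cur (x.2.2 / sq x) x s)) (𝓝 0) (𝓝 (u 0)) :=
        (hu.continuous.tendsto 0).comp (tendsto_cur _ _)
      refine ContinuousAt.continuousWithinAt ?_
      unfold ContinuousAt
      simp only [cur_zero]
      exact h3
    · exact (hg s h0).1.continuousAt.continuousWithinAt
  have key := h1 F (fun s => u (cur (x.2.2 / sq x) x s)) g a b T hTpos hab hcont
    (hgc.mono Ioc_subset_Ioi_self) (fun s hs => (hg s hs.1).1)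
    (by simp only [cur_zero]; exact hb) (by simp only [hfT, norm_zero]; exact ha)
  refine key.trans ?_
  have hstep : ∫⁻ s in Ioc 0 T, {s | a < ‖u (cur (x.2.2 / sq x) x s)‖ ∧
        ‖u (cur (x.2.2 / sq x) x s)‖ < b}.indicator (fun s => ENNReal.ofReal ‖g s‖) s ≤
      ∫⁻ s in Ioc 0 T, ENNReal.ofReal (N x ^ 2 / mz x) *
        bd u a b (cur (x.2.2 / sq x) x s) := by
    refine setLIntegral_mono' measurableSet_Ioc (fun s hs => ?_)
    by_cases hmem : a < ‖u (cur (x.2.2 / sq x) x s)‖ ∧ ‖u (cur (x.2.2 / sq x) x s)‖ < b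
    · rw [indicator_of_mem (by exact hmem), bd, indicator_of_mem (by exact hmem),
        ← ENNReal.ofReal_mul (div_nonneg (sq_nonneg _) hx.le)]
      exact ENNReal.ofReal_le_ofReal (hg s hs.1).2
    · rw [indicator_of_notMem (by exact hmem)]
      exact bot_le
  refine hstep.trans ?_
  rw [lintegral_const_mul' _ _ ENNReal.ofReal_ne_top]
  exact mul_le_mul_right (lintegral_mono_set Ioc_subset_Ioi_self) _

end Pool.Agent.H56.HQ
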